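import Mathlib

set_option autoImplicit false
open SimpleGraph

namespace Pool.Agent.H.MP_000f96_co

/-- One round of the `H`-process: add every pair whose addition increases the number of copies. -/
def step {W V : Type} [Fintype V] (H : SimpleGraph W) (G : SimpleGraph V) : SimpleGraph V :=
  G ⊔ fromEdgeSet {e | G.copyCount H < (G ⊔ fromEdgeSet {e}).copyCount H}

/-- The graph after `t` rounds. -/
def proc {W V : Type} [Fintype V] (H : SimpleGraph W) (G : SimpleGraph V) (t : ℕ) :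
    SimpleGraph V := (step H)^[t] G

/-- The running time. -/
noncomputable def tau {W V : Type} [Fintype V] (H : SimpleGraph W) (G : SimpleGraph V) : ℕ :=
  sInf {t | proc H G t = proc H G (t + 1)}

/-- The process ends in the complete graph. -/
def Perc {W V : Type} [Fintype V] (H : SimpleGraph W) (G : SimpleGraph V) : Prop :=
  proc H G (tau H G) = ⊤

/-- Maximum running time over all graphs on `n` vertices. -/
noncomputable def M {W : Type} (H : SimpleGraph W) (n : ℕ) : ℕ :=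
  ⨆ G : SimpleGraph (Fin n), tau H G

/-- Maximum running time over percolating graphs on `n` vertices. -/
noncomputable def M' {W : Type} (H : SimpleGraph W) (n : ℕ) : ℕ :=
  ⨆ G : {G : SimpleGraph (Fin n) // Perc H G}, tau H G.1

section bridge
variable {W V : Type} [Fintype V]

def rep {G : SimpleGraph V} (K : G.Subgraph) : Set V × (V → V → Prop) := (K.verts, K.Adj)

omit [Fintype V] in
lemma rep_inj {G : SimpleGraph V} : Function.Injective (rep (G := G)) := by
  intro K L h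
  simp only [rep, Prod.mk.injEq] at h
  exact Subgraph.ext h.1 h.2

lemma cc_eq (H : SimpleGraph W) (G : SimpleGraph V) :
    G.copyCount H = (Set.range fun f : H.Copy G => rep f.toSubgraph).ncard := by
  classical
  have h1 : (Set.range fun f : H.Copy G => rep f.toSubgraph) =
      rep '' {B' : G.Subgraph | Nonempty (H ≃g B'.coe)} := by
    rw [← Copy.range_toSubgraph, ← Set.range_comp]; rfl
  rw [h1, Set.ncard_image_of_injective _ rep_inj, copyCount, ← Set.ncard_coe_finset]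
  congr 1
  ext K
  simp

lemma bridge (H : SimpleGraph W) (G G' : SimpleGraph V) (hle : G ≤ G') :
    G.copyCount H < G'.copyCount H ↔
      ∃ f : H.Copy G', ∃ i j, H.Adj i j ∧ ¬ G.Adj (f i) (f j) := by
  rw [cc_eq, cc_eq]
  constructor
  · intro h
    by_contra hc
    push Not at hc
    refine absurd h (not_lt.2 (Set.ncard_le_ncard ?_ (Set.toFinite _)))
    rintro _ ⟨f, rfl⟩
    exact ⟨⟨⟨f, fun {i j} hij => hc f i j hij⟩, f.injective⟩, rfl⟩
  · rintro ⟨f, i, j, hij, hn⟩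
    refine Set.ncard_lt_ncard ⟨?_, fun hs => hn ?_⟩ (Set.toFinite _)
    · rintro _ ⟨g, rfl⟩
      exact ⟨⟨⟨g, fun {i j} hij => hle (g.toHom.map_rel hij)⟩, g.injective⟩, rfl⟩
    · obtain ⟨g, hg⟩ := hs ⟨f, rfl⟩
      have h2 : g.toSubgraph.Adj = f.toSubgraph.Adj := congrArg Prod.snd hg
      have h3 : f.toSubgraph.Adj (f i) (f j) := ⟨i, j, hij, rfl, rfl⟩
      rw [← h2] at h3
      exact g.toSubgraph.adj_sub h3

lemma step_adj (H : SimpleGraph W) (G : SimpleGraph V) (x y : V) :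
    (step H G).Adj x y ↔ G.Adj x y ∨
      ((∃ f : H.Copy (G ⊔ edge x y), ∃ i j, H.Adj i j ∧ ¬ G.Adj (f i) (f j)) ∧ x ≠ y) := by
  rw [← bridge H G (G ⊔ edge x y) le_sup_left]
  simp [step, fromEdgeSet_adj, edge]

lemma le_step (H : SimpleGraph W) (G : SimpleGraph V) : G ≤ step H G := le_sup_left

lemma proc_succ (H : SimpleGraph W) (G : SimpleGraph V) (t : ℕ) :
    proc H G (t + 1) = step H (proc H G t) := Function.iterate_succ_apply' _ _ _

lemma proc_mono (H : SimpleGraph W) (G : SimpleGraph V) : Monotone (proc H G) :=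
  monotone_nat_of_le_succ fun t => by rw [proc_succ]; exact le_step _ _

lemma tau_le (H : SimpleGraph W) (G : SimpleGraph V) (t : ℕ)
    (h : proc H G t = proc H G (t + 1)) : tau H G ≤ t := Nat.sInf_le h

lemma le_tau (H : SimpleGraph W) (G : SimpleGraph V) (T : ℕ)
    (h : ∀ t < T, proc H G t ≠ proc H G (t + 1)) : T ≤ tau H G := by
  obtain ⟨n, hn⟩ := WellFoundedGT.monotone_chain_condition
    (⟨proc H G, proc_mono H G⟩ : ℕ →o SimpleGraph V)
  have hne : {t | proc H G t = proc H G (t + 1)}.Nonempty := ⟨n, hn (n + 1) (by omega)⟩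
  by_contra hc
  exact h _ (not_le.1 hc) (Nat.sInf_mem hne)

end bridge

abbrev WW : Type := (Fin 6 ⊕ Fin 5) ⊕ Fin 3

def c1 : WW → Bool
  | .inl (.inl _) => true
  | .inl (.inr _) => false
  | .inr k => k = 0

def c2 : WW → Bool
  | .inl _ => false
  | .inr _ => true

def c3 : WW → Bool
  | .inl (.inl _) => false
  | .inl (.inr _) => true
  | .inr _ => false

def HH : SimpleGraph WW where
  Adj i j := i ≠ j ∧ ((c1 i ∧ c1 j) ∨ (c3 i ∧ c3 j) ∨ (c2 i ∧ c2 j))
  symm := ⟨fun i j h => ⟨h.1.symm, by tauto⟩⟩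
  loopless := ⟨fun i h => h.1 rfl⟩

structure Conf {V : Type} (G : SimpleGraph V) (Q : Finset V) (v a b : V) (F : Finset V) :
    Prop where
  cQ : Q.card = 7
  kQ : G.IsClique (Q : Set V)
  vQ : v ∈ Q
  aQ : a ∉ Q
  bQ : b ∉ Q
  va : G.Adj v a
  vb : G.Adj v b
  ab : G.Adj a b
  cF : F.card = 5
  kF : G.IsClique (F : Set V)
  dQ : ∀ u ∈ Q, u ∉ F
  aF : a ∉ F
  bF : b ∉ F

def Uses {V : Type} (x y : V) (Q : Finset V) (v a b : V) (F : Finset V) : Prop :=
  (x ∈ Q ∧ y ∈ Q) ∨ (x ∈ F ∧ y ∈ F) ∨ ((x = v ∨ x = a ∨ x = b) ∧ (y = v ∨ y = a ∨ y = b))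

section conf
variable {V : Type} [Fintype V]

lemma av (G : SimpleGraph V) {x y : V} {Q F : Finset V} {v a b : V} (hxy : x ≠ y)
    (hc : Conf (G ⊔ edge x y) Q v a b F) (hu : Uses x y Q v a b F) : (step HH G).Adj x y := by
  classical
  rw [step_adj]
  by_cases hG : G.Adj x y
  · exact Or.inl hG
  refine Or.inr ⟨?_, hxy⟩
  have h6 : (Q.erase v).card = 6 := by rw [Finset.card_erase_of_mem hc.vQ, hc.cQ]
  let g := (Finset.equivFinOfCardEq h6).symm
  let h := (Finset.equivFinOfCardEq hc.cF).symm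
  let f : WW → V := Sum.elim (Sum.elim (fun i => (g i : V)) (fun i => (h i : V))) ![v, a, b]
  have g1 : ∀ i, (g i : V) ∈ Q ∧ (g i : V) ≠ v := fun i => by
    have := (g i).2
    rw [Finset.mem_erase] at this
    exact ⟨this.2, this.1⟩
  have h1 : ∀ i, (h i : V) ∈ F := fun i => (h i).2
  have f1 : ∀ i, c1 i → f i ∈ Q := by
    rintro ((i | i) | i) hi
    · exact (g1 i).1
    · simp [c1] at hi
    · have : i = 0 := by simpa [c1] using hi
      subst this
      exact hc.vQ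
  have f3 : ∀ i, c3 i → f i ∈ F := by
    rintro ((i | i) | i) hi
    · simp [c3] at hi
    · exact h1 i
    · simp [c3] at hi
  have hva := hc.va.ne
  have hvb := hc.vb.ne
  have hab := hc.ab.ne
  have hvF := hc.dQ v hc.vQ
  have t1 : ∀ i k, (g i : V) ≠ ![v, a, b] k := by
    intro i k e
    have := g1 i
    rw [e] at this
    fin_cases k
    · exact this.2 rfl
    · exact hc.aQ this.1
    · exact hc.bQ this.1
  have t2 : ∀ i k, (h i : V) ≠ ![v, a, b] k := by
    intro i k e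
    have := h1 i
    rw [e] at this
    fin_cases k
    · exact hvF this
    · exact hc.aF this
    · exact hc.bF this
  have t3 : ∀ i k, (g i : V) ≠ (h k : V) := fun i k e => hc.dQ _ (g1 i).1 (e ▸ h1 k)
  have finj : Function.Injective f := by
    rintro ((i | i) | i) ((j | j) | j) e
    · rw [g.injective (Subtype.ext e)]
    · exact absurd e (t3 i j)
    · exact absurd e (t1 i j)
    · exact absurd e.symm (t3 j i)
    · rw [h.injective (Subtype.ext e)]
    · exact absurd e (t2 i j)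
    · exact absurd e.symm (t1 j i)
    · exact absurd e.symm (t2 j i)
    · have e' : ![v, a, b] i = ![v, a, b] j := e
      fin_cases i <;> fin_cases j <;> simp_all
  have fadj : ∀ i j, HH.Adj i j → (G ⊔ edge x y).Adj (f i) (f j) := by
    rintro i j ⟨hne, h | h | h⟩
    · exact hc.kQ (f1 i h.1) (f1 j h.2) (finj.ne hne)
    · exact hc.kF (f3 i h.1) (f3 j h.2) (finj.ne hne)
    · rcases i with i | i
      · simp [c2] at h
      rcases j with j | j
      · simp [c2] at h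
      show (G ⊔ edge x y).Adj (![v, a, b] i) (![v, a, b] j)
      fin_cases i <;> fin_cases j
      all_goals first
        | exact absurd rfl hne
        | exact hc.va | exact hc.vb | exact hc.ab
        | exact hc.va.symm | exact hc.vb.symm | exact hc.ab.symm
  have s1 : ∀ u ∈ Q, ∃ i, c1 i ∧ f i = u := by
    intro u hu
    by_cases e : u = v
    · exact ⟨.inr 0, rfl, e.symm⟩
    · refine ⟨.inl (.inl (g.symm ⟨u, Finset.mem_erase.2 ⟨e, hu⟩⟩)), rfl, ?_⟩
      show ((g (g.symm _) : (Q.erase v)) : V) = u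
      rw [Equiv.apply_symm_apply]
  have s3 : ∀ u ∈ F, ∃ i, c3 i ∧ f i = u := by
    intro u hu
    refine ⟨.inl (.inr (h.symm ⟨u, hu⟩)), rfl, ?_⟩
    show ((h (h.symm _) : F) : V) = u
    rw [Equiv.apply_symm_apply]
  have s2 : ∀ u, (u = v ∨ u = a ∨ u = b) → ∃ i, c2 i ∧ f i = u := by
    rintro u (e | e | e)
    · exact ⟨.inr 0, rfl, e.symm⟩
    · exact ⟨.inr 1, rfl, e.symm⟩
    · exact ⟨.inr 2, rfl, e.symm⟩
  have key : ∃ i j, HH.Adj i j ∧ f i = x ∧ f j = y := by
    rcases hu with hu | hu | hu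
    · obtain ⟨i, hi, ei⟩ := s1 x hu.1
      obtain ⟨j, hj, ej⟩ := s1 y hu.2
      exact ⟨i, j, ⟨fun e => hxy (by rw [← ei, ← ej, e]), Or.inl ⟨hi, hj⟩⟩, ei, ej⟩
    · obtain ⟨i, hi, ei⟩ := s3 x hu.1
      obtain ⟨j, hj, ej⟩ := s3 y hu.2
      exact ⟨i, j, ⟨fun e => hxy (by rw [← ei, ← ej, e]), Or.inr (Or.inl ⟨hi, hj⟩)⟩, ei, ej⟩
    · obtain ⟨i, hi, ei⟩ := s2 x hu.1
      obtain ⟨j, hj, ej⟩ := s2 y hu.2
      exact ⟨i, j, ⟨fun e => hxy (by rw [← ei, ← ej, e]), Or.inr (Or.inr ⟨hi, hj⟩)⟩, ei, ej⟩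
  obtain ⟨i, j, hij, ei, ej⟩ := key
  refine ⟨⟨⟨f, fun {i j} hij => fadj i j hij⟩, finj⟩, i, j, hij, ?_⟩
  show ¬ G.Adj (f i) (f j)
  rw [ei, ej]
  exact hG

lemma inv (G : SimpleGraph V) {x y : V} (h : (step HH G).Adj x y) (hG : ¬ G.Adj x y) :
    ∃ Q v a b F, Conf (G ⊔ edge x y) Q v a b F ∧ Uses x y Q v a b F := by
  classical
  rw [step_adj] at h
  obtain ⟨⟨f, i, j, hij, hn⟩, hxy⟩ := h.resolve_left hG
  have fadj : ∀ i j, HH.Adj i j → (G ⊔ edge x y).Adj (f i) (f j) :=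
    fun i j hij => f.toHom.map_rel hij
  have he : (f i = x ∧ f j = y) ∨ (f i = y ∧ f j = x) := by
    have := fadj i j hij
    rw [sup_adj, edge_adj] at this
    exact (this.resolve_left hn).1
  let Q := (Finset.univ.filter fun i => c1 i).map f.toEmbedding
  let F := (Finset.univ.filter fun i => c3 i).map f.toEmbedding
  have mQ : ∀ i, f i ∈ Q ↔ c1 i := fun i =>
    (Finset.mem_map' f.toEmbedding (a := i) (s := Finset.univ.filter fun i => c1 i)).trans
      (by simp)
  have mF : ∀ i, f i ∈ F ↔ c3 i := fun i =>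
    (Finset.mem_map' f.toEmbedding (a := i) (s := Finset.univ.filter fun i => c3 i)).trans
      (by simp)
  have eQ : ∀ u ∈ Q, ∃ i, c1 i ∧ f i = u := fun u hu => by
    obtain ⟨i, hi, e⟩ := Finset.mem_map.1 hu
    exact ⟨i, (Finset.mem_filter.1 hi).2, e⟩
  have eF : ∀ u ∈ F, ∃ i, c3 i ∧ f i = u := fun u hu => by
    obtain ⟨i, hi, e⟩ := Finset.mem_map.1 hu
    exact ⟨i, (Finset.mem_filter.1 hi).2, e⟩
  refine ⟨Q, f (.inr 0), f (.inr 1), f (.inr 2), F, ⟨?_, ?_, ?_, ?_, ?_, ?_, ?_, ?_, ?_, ?_, ?_,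
    ?_, ?_⟩, ?_⟩
  · rw [Finset.card_map]; decide
  · intro u hu w hw hne
    obtain ⟨i, hi, rfl⟩ := eQ u hu
    obtain ⟨j, hj, rfl⟩ := eQ w hw
    exact fadj i j ⟨fun e => hne (by rw [e]), Or.inl ⟨hi, hj⟩⟩
  · rw [mQ]; decide
  · rw [mQ]; decide
  · rw [mQ]; decide
  · exact fadj _ _ ⟨by decide, Or.inr (Or.inr ⟨rfl, rfl⟩)⟩
  · exact fadj _ _ ⟨by decide, Or.inr (Or.inr ⟨rfl, rfl⟩)⟩
  · exact fadj _ _ ⟨by decide, Or.inr (Or.inr ⟨rfl, rfl⟩)⟩
  · rw [Finset.card_map]; decide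
  · intro u hu w hw hne
    obtain ⟨i, hi, rfl⟩ := eF u hu
    obtain ⟨j, hj, rfl⟩ := eF w hw
    exact fadj i j ⟨fun e => hne (by rw [e]), Or.inr (Or.inl ⟨hi, hj⟩)⟩
  · intro u hu
    obtain ⟨i, hi, rfl⟩ := eQ u hu
    rw [mF]
    have : ∀ i, c1 i → ¬ c3 i := by decide
    exact this i hi
  · rw [mF]; decide
  · rw [mF]; decide
  · have s2 : ∀ i, c2 i → (f i = f (.inr 0) ∨ f i = f (.inr 1) ∨ f i = f (.inr 2)) := by
      rintro (i | i) hi
      · simp [c2] at hi
      · fin_cases i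
        · exact Or.inl rfl
        · exact Or.inr (Or.inl rfl)
        · exact Or.inr (Or.inr rfl)
    have : Uses (f i) (f j) Q (f (.inr 0)) (f (.inr 1)) (f (.inr 2)) F := by
      rcases hij.2 with h | h | h
      · exact Or.inl ⟨(mQ i).2 h.1, (mQ j).2 h.2⟩
      · exact Or.inr (Or.inl ⟨(mF i).2 h.1, (mF j).2 h.2⟩)
      · exact Or.inr (Or.inr ⟨s2 i h.1, s2 j h.2⟩)
    rcases he with ⟨e1, e2⟩ | ⟨e1, e2⟩
    · rw [e1, e2] at this; exact this
    · rw [e1, e2] at this
      unfold Uses at this ⊢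
      tauto

end conf

end Pool.Agent.H.MP_000f96_co
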