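import Pool.Agent.H.MP_000f96_co.A

set_option autoImplicit false
open SimpleGraph

namespace Pool.Agent.H.MP_000f96_co

open Classical in
noncomputable def nb {V : Type} [Fintype V] (G : SimpleGraph V) (u : V) : Finset V :=
  Finset.univ.filter (G.Adj u)

variable {V : Type} [Fintype V]

@[simp] lemma mem_nb {G : SimpleGraph V} {u w : V} : w ∈ nb G u ↔ G.Adj u w := by simp [nb]

lemma nb_mono {G G' : SimpleGraph V} (h : G ≤ G') (u : V) : nb G u ⊆ nb G' u :=
  fun _ hw => mem_nb.2 (h (mem_nb.1 hw))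

omit [Fintype V] in
lemma Conf.mono {G G' : SimpleGraph V} (h : G ≤ G') {Q F : Finset V} {v a b : V}
    (c : Conf G Q v a b F) : Conf G' Q v a b F :=
  ⟨c.cQ, c.kQ.mono h, c.vQ, c.aQ, c.bQ, h c.va, h c.vb, h c.ab, c.cF, c.kF.mono h, c.dQ, c.aF,
    c.bF⟩

omit [Fintype V] in
lemma adj_of_sup {G : SimpleGraph V} {x y u w : V} (h : (G ⊔ edge x y).Adj u w)
    (hn : ¬ ((u = x ∧ w = y) ∨ (u = y ∧ w = x))) : G.Adj u w := by
  rw [sup_adj, edge_adj] at h
  exact h.resolve_right fun e => hn e.1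

omit [Fintype V] in
lemma sup_edge_adj (G : SimpleGraph V) {x y : V} (h : x ≠ y) : (G ⊔ edge x y).Adj x y := by
  rw [sup_adj, edge_adj]
  exact Or.inr ⟨Or.inl ⟨rfl, rfl⟩, h⟩

omit [Fintype V] in
lemma sup_edge_le {G G' : SimpleGraph V} (h : G ≤ G') {x y : V} (hxy : G'.Adj x y) :
    G ⊔ edge x y ≤ G' := by
  intro u w huw
  rw [sup_adj, edge_adj] at huw
  rcases huw with huw | ⟨⟨rfl, rfl⟩ | ⟨rfl, rfl⟩, _⟩
  · exact h huw
  · exact hxy
  · exact hxy.symm

omit [Fintype V] in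
lemma Conf.third {G : SimpleGraph V} {Q F : Finset V} {v a b x y : V}
    (c : Conf G Q v a b F) (hu : Uses x y Q v a b F) (hxy : x ≠ y) :
    ∃ w, w ≠ x ∧ w ≠ y ∧ G.Adj w x ∧ G.Adj w y := by
  classical
  have key : ∀ Y : Finset V, G.IsClique (Y : Set V) → 3 ≤ Y.card → x ∈ Y → y ∈ Y →
      ∃ w, w ≠ x ∧ w ≠ y ∧ G.Adj w x ∧ G.Adj w y := by
    intro Y hY h3 hx hy
    have : ({x, y} : Finset V).card < Y.card := lt_of_le_of_lt Finset.card_le_two h3
    obtain ⟨w, hw, hw'⟩ := Finset.exists_mem_notMem_of_card_lt_card this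
    simp only [Finset.mem_insert, Finset.mem_singleton, not_or] at hw'
    exact ⟨w, hw'.1, hw'.2, hY hw hx hw'.1, hY hw hy hw'.2⟩
  rcases hu with hu | hu | hu
  · exact key Q c.kQ (by rw [c.cQ]; omega) hu.1 hu.2
  · exact key F c.kF (by rw [c.cF]; omega) hu.1 hu.2
  · have h3 : G.IsNClique 3 {v, a, b} := is3Clique_triple_iff.2 ⟨c.va, c.vb, c.ab⟩
    exact key _ h3.1 (by rw [h3.2]) (by simpa using hu.1) (by simpa using hu.2)

lemma step_reach (G : SimpleGraph V) {x y : V} (h : (step HH G).Adj x y) : G.Reachable x y := by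
  by_cases hG : G.Adj x y
  · exact hG.reachable
  obtain ⟨Q, v, a, b, F, c, hu⟩ := inv G h hG
  obtain ⟨w, h1, h2, h3, h4⟩ := c.third hu h.ne
  exact (adj_of_sup h3 (by tauto)).symm.reachable.trans (adj_of_sup h4 (by tauto)).reachable

structure Base (G : SimpleGraph V) (Q F : Finset V) : Prop where
  cQ : Q.card = 7
  kQ : G.IsClique (Q : Set V)
  cF : F.card = 5
  kF : G.IsClique (F : Set V)
  dQ : ∀ u ∈ Q, u ∉ F

omit [Fintype V] in
lemma Base.mono {G G' : SimpleGraph V} (h : G ≤ G') {Q F : Finset V} (c : Base G Q F) :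
    Base G' Q F := ⟨c.cQ, c.kQ.mono h, c.cF, c.kF.mono h, c.dQ⟩

lemma Base.mv1 {G : SimpleGraph V} {Q F : Finset V} (c : Base G Q F) {v a b : V} (hv : v ∈ Q)
    (aQ : a ∉ Q) (aF : a ∉ F) (bQ : b ∉ Q) (bF : b ∉ F) (va : G.Adj v a) (ab : G.Adj a b) :
    (step HH G).Adj v b := by
  have hne : v ≠ b := fun e => bQ (e ▸ hv)
  exact av G hne (Q := Q) (F := F) (v := v) (a := a) (b := b)
    ⟨c.cQ, c.kQ.mono le_sup_left, hv, aQ, bQ, Or.inl va, sup_edge_adj G hne, Or.inl ab, c.cF,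
      c.kF.mono le_sup_left, c.dQ, aF, bF⟩
    (Or.inr (Or.inr ⟨Or.inl rfl, Or.inr (Or.inr rfl)⟩))

lemma Base.mv2 {G : SimpleGraph V} {Q F : Finset V} (c : Base G Q F) {v a b : V} (hv : v ∈ Q)
    (aQ : a ∉ Q) (aF : a ∉ F) (bQ : b ∉ Q) (bF : b ∉ F) (va : G.Adj v a) (vb : G.Adj v b)
    (hne : a ≠ b) : (step HH G).Adj a b :=
  av G hne (Q := Q) (F := F) (v := v) (a := a) (b := b)
    ⟨c.cQ, c.kQ.mono le_sup_left, hv, aQ, bQ, Or.inl va, Or.inl vb, sup_edge_adj G hne, c.cF,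
      c.kF.mono le_sup_left, c.dQ, aF, bF⟩
    (Or.inr (Or.inr ⟨Or.inr (Or.inl rfl), Or.inr (Or.inr rfl)⟩))

lemma Conf.mv3 {G : SimpleGraph V} {Q F Y : Finset V} {v a b x y : V} (c : Conf G Q v a b F)
    (cY : Y.card = 5) (kY : (G ⊔ edge x y).IsClique (Y : Set V)) (hx : x ∈ Y) (hy : y ∈ Y)
    (hxy : x ≠ y) (dQ : ∀ u ∈ Q, u ∉ Y) (aY : a ∉ Y) (bY : b ∉ Y) : (step HH G).Adj x y :=
  av G hxy (Q := Q) (F := Y) (v := v) (a := a) (b := b)
    ⟨c.cQ, c.kQ.mono le_sup_left, c.vQ, c.aQ, c.bQ, Or.inl c.va, Or.inl c.vb, Or.inl c.ab, cY, kY,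
      dQ, aY, bY⟩ (Or.inr (Or.inl ⟨hx, hy⟩))

def NoBig (G : SimpleGraph V) : Prop := ∀ Y : Finset V, G.IsClique (Y : Set V) → Y.card ≤ 12

omit [Fintype V] in
lemma NoBig.anti {G G' : SimpleGraph V} (h : G ≤ G') (c : NoBig G') : NoBig G :=
  fun Y hY => c Y (hY.mono h)

lemma fact1 {G : SimpleGraph V} {Q F : Finset V} (c : Base G Q F) (hb : NoBig (step HH G))
    {v : V} (hv : v ∈ Q) : (nb G v).card ≤ 24 := by
  classical
  have h1 : (nb G v \ (Q ∪ F)).card ≤ 12 := by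
    refine hb _ fun a ha b hb' hne => ?_
    simp only [Finset.coe_sdiff, Finset.coe_union, Set.mem_diff, Finset.mem_coe, mem_nb,
      Set.mem_union, not_or] at ha hb'
    exact c.mv2 hv ha.2.1 ha.2.2 hb'.2.1 hb'.2.2 ha.1 hb'.1 hne
  have h2 := Finset.card_le_card_sdiff_add_card (s := nb G v) (t := Q ∪ F)
  have h3 := Finset.card_union_le Q F
  rw [c.cQ, c.cF] at h3
  omega

lemma fact2 {G : SimpleGraph V} {Q F : Finset V} (c : Base G Q F)
    (hb : NoBig (step HH (step HH G))) {v w : V} (hv : v ∈ Q) (wQ : w ∉ Q) (wF : w ∉ F)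
    (vw : G.Adj v w) : (nb G w).card ≤ 36 := by
  classical
  have h0 := fact1 (c.mono (le_step HH G)) hb hv
  have h1 : (nb G w \ (Q ∪ F)).card ≤ (nb (step HH G) v).card := by
    refine Finset.card_le_card fun b hb' => ?_
    simp only [Finset.mem_sdiff, mem_nb, Finset.mem_union, not_or] at hb'
    exact mem_nb.2 (c.mv1 hv wQ wF hb'.2.1 hb'.2.2 vw hb'.1)
  have h2 := Finset.card_le_card_sdiff_add_card (s := nb G w) (t := Q ∪ F)
  have h3 := Finset.card_union_le Q F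
  rw [c.cQ, c.cF] at h3
  omega

omit [Fintype V] in
lemma boundary {G : SimpleGraph V} (h : G.Preconnected) (D : Set V) {u w : V} (hu : u ∈ D)
    (hw : w ∉ D) : ∃ d ∈ D, ∃ z ∉ D, G.Adj d z := by
  obtain ⟨p⟩ := h u w
  obtain ⟨d, -, h1, h2⟩ := p.exists_boundary_dart D hu hw
  exact ⟨d.fst, h1, d.snd, h2, d.adj⟩

lemma grow {G : SimpleGraph V} (h : G.Preconnected) {Y : Finset V} (kY : G.IsClique (Y : Set V))
    (h13 : 13 ≤ Y.card) (hY : Y ≠ Finset.univ) :
    ∃ Y' : Finset V, (step HH G).IsClique (Y' : Set V) ∧ Y'.card = Y.card + 1 := by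
  classical
  obtain ⟨w, hw⟩ : ∃ w, w ∉ Y := by
    by_contra hc
    push Not at hc
    exact hY (Finset.eq_univ_of_forall hc)
  obtain ⟨u, hu⟩ : Y.Nonempty := Finset.card_pos.1 (by omega)
  obtain ⟨y, hy, a, ha, ya⟩ := boundary h (Y : Set V) hu hw
  have ha' : a ∉ Y := ha
  have hy' : y ∈ Y := hy
  refine ⟨insert a Y, ?_, Finset.card_insert_of_notMem ha'⟩
  rw [Finset.coe_insert]
  refine (kY.mono (le_step HH G)).insert fun b hb hab => ?_
  have hb' : b ∈ Y := hb
  by_cases e : b = y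
  · rw [e]; exact le_step HH G ya.symm
  have c1 : (Y.erase b).card = Y.card - 1 := Finset.card_erase_of_mem hb'
  obtain ⟨Q, hQ1, hQ2, hQ3⟩ := Finset.exists_subsuperset_card_eq (s := {y}) (t := Y.erase b)
    (n := 7) (by simpa using ⟨fun e' => e e'.symm, hy'⟩) (by simp) (by omega)
  have c2 : (Y.erase b \ Q).card = (Y.erase b).card - Q.card := Finset.card_sdiff_of_subset hQ2
  obtain ⟨F, hF1, hF2⟩ := Finset.exists_subset_card_eq (s := Y.erase b \ Q) (n := 5) (by omega)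
  have QY : Q ⊆ Y := hQ2.trans (Finset.erase_subset _ _)
  have FY : F ⊆ Y := (hF1.trans Finset.sdiff_subset).trans (Finset.erase_subset _ _)
  have c : Base G Q F := ⟨hQ3, kY.subset QY, hF2, kY.subset FY,
    fun u hu hu' => (Finset.mem_sdiff.1 (hF1 hu')).2 hu⟩
  exact c.mv2 (hQ1 (Finset.mem_singleton_self y)) (fun h => ha' (QY h)) (fun h => ha' (FY h))
    (fun h => by simpa using hQ2 h) (fun h => by simpa using hF1 h) ya
    (kY hy hb fun e' => e e'.symm) hab

lemma star (G : ℕ → SimpleGraph V) (hm : Monotone G) (u : V) :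
    ∃ S : Finset V, S.card ≤ 37 ∧ u ∈ S ∧ ∀ t, (nb (G t) u).card ≤ 36 → nb (G t) u ⊆ S := by
  classical
  by_cases h : ∃ t, (nb (G t) u).card ≤ 36
  · obtain ⟨t1, h1⟩ := h
    let P : ℕ → Prop := fun k => ∃ t, (nb (G t) u).card = k
    obtain ⟨t0, h0⟩ : P (Nat.findGreatest P 36) := Nat.findGreatest_spec h1 ⟨t1, rfl⟩
    have h36 : Nat.findGreatest P 36 ≤ 36 := Nat.findGreatest_le 36
    refine ⟨insert u (nb (G t0) u), (Finset.card_insert_le _ _).trans (by omega),
      Finset.mem_insert_self _ _, fun t ht => Finset.Subset.trans ?_ (Finset.subset_insert _ _)⟩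
    rcases le_total t t0 with h | h
    · exact nb_mono (hm h) u
    · have := Nat.le_findGreatest (P := P) ht ⟨t, rfl⟩
      exact (Finset.eq_of_subset_of_card_le (nb_mono (hm h) u) (by omega)).ge
  · exact ⟨{u}, by simp, by simp, fun t ht => absurd ⟨t, ht⟩ h⟩

def Low (G : SimpleGraph V) (u : V) : Prop := (nb G u).card ≤ 36

lemma Low.anti {G G' : SimpleGraph V} (h : G ≤ G') {u : V} (c : Low G' u) : Low G u :=
  (Finset.card_le_card (nb_mono h u)).trans c

structure Calm (S : V → Finset V) (Z : Finset V) (G G' : SimpleGraph V) : Prop where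
  c1 : ∀ u x y, x ∈ S u → y ∈ S u → G'.Adj x y → G.Adj x y
  c2 : ∀ x y, x ∈ Z → G'.Adj x y → G.Adj x y
  c3 : ∀ u, Low G u → Low G' u

lemma Calm.sub {S : V → Finset V} {Z : Finset V} {G G1 G2 G' : SimpleGraph V}
    (c : Calm S Z G G') (h1 : G ≤ G1) (h2 : G2 ≤ G') : Calm S Z G1 G2 :=
  ⟨fun u x y hx hy h => h1 (c.c1 u x y hx hy (h2 h)), fun x y hx h => h1 (c.c2 x y hx (h2 h)),
    fun u h => (c.c3 u (h.anti h1)).anti h2⟩

lemma pure {S : V → Finset V} {Z : Finset V} {G : SimpleGraph V} (hS : ∀ u, u ∈ S u)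
    (hS' : ∀ u, Low (step HH G) u → nb (step HH G) u ⊆ S u) (c : Calm S Z G (step HH G))
    (hb : NoBig (step HH G)) {x y : V} (h : (step HH G).Adj x y) (hG : ¬ G.Adj x y) :
    ∃ F : Finset V, F.card = 5 ∧ x ∈ F ∧ y ∈ F ∧ (G ⊔ edge x y).IsClique (F : Set V) ∧
      (∀ u ∈ F, ¬ Low G u) ∧ x ∉ Z ∧ y ∉ Z := by
  classical
  have hle : G ⊔ edge x y ≤ step HH G := sup_edge_le (le_step HH G) h
  have key : ∀ u, Low G u → (x = u ∨ (G ⊔ edge x y).Adj u x) → (y = u ∨ (G ⊔ edge x y).Adj u y) →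
      False := by
    intro u hu hx hy
    have h1 := hS' u (c.c3 u hu)
    refine hG (c.c1 u x y ?_ ?_ h)
    · rcases hx with rfl | hx
      · exact hS _
      · exact h1 (mem_nb.2 (hle hx))
    · rcases hy with rfl | hy
      · exact hS _
      · exact h1 (mem_nb.2 (hle hy))
  have fin : ∀ F : Finset V, F.card = 5 → x ∈ F → y ∈ F → (G ⊔ edge x y).IsClique (F : Set V) →
      ∃ F : Finset V, F.card = 5 ∧ x ∈ F ∧ y ∈ F ∧ (G ⊔ edge x y).IsClique (F : Set V) ∧
      (∀ u ∈ F, ¬ Low G u) ∧ x ∉ Z ∧ y ∉ Z := by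
    intro F h5 hx hy hk
    refine ⟨F, h5, hx, hy, hk, fun u hu hl => key u hl ?_ ?_, fun hz => hG (c.c2 x y hz h),
      fun hz => hG (c.c2 y x hz h.symm).symm⟩
    · by_cases e : x = u
      · exact Or.inl e
      · exact Or.inr (hk hu hx fun e' => e e'.symm)
    · by_cases e : y = u
      · exact Or.inl e
      · exact Or.inr (hk hu hy fun e' => e e'.symm)
  obtain ⟨Q, v, a, b, F, cf, hu | hu | hu⟩ := inv G h hG
  · obtain ⟨F', h1, h2, h3⟩ := Finset.exists_subsuperset_card_eq (s := {x, y}) (t := Q) (n := 5)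
      (by intro w hw; simp only [Finset.mem_insert, Finset.mem_singleton] at hw
          rcases hw with rfl | rfl
          exacts [hu.1, hu.2])
      (Finset.card_le_two.trans (by omega)) (by rw [cf.cQ]; omega)
    exact fin F' h3 (h1 (by simp)) (h1 (by simp)) (cf.kQ.subset h2)
  · exact fin F cf.cF hu.1 hu.2 cf.kF
  · exfalso
    have hxy := h.ne
    have aQ := cf.aQ
    have bQ := cf.bQ
    have nQ : ¬ (x ∈ Q ∧ y ∈ Q) := by
      rintro ⟨h1, h2⟩
      rcases hu with ⟨rfl | rfl | rfl, rfl | rfl | rfl⟩ <;> contradiction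
    have nF : x ∉ F := by
      rcases hu.1 with rfl | rfl | rfl
      exacts [cf.dQ _ cf.vQ, cf.aF, cf.bF]
    have bs : Base G Q F := by
      refine ⟨cf.cQ, fun u k1 w k2 hne => adj_of_sup (cf.kQ k1 k2 hne) ?_, cf.cF,
        fun u k1 w k2 hne => adj_of_sup (cf.kF k1 k2 hne) ?_, cf.dQ⟩
      · rintro (⟨e1, e2⟩ | ⟨e1, e2⟩)
        exacts [nQ ⟨e1 ▸ k1, e2 ▸ k2⟩, nQ ⟨e2 ▸ k2, e1 ▸ k1⟩]
      · rintro (⟨e1, e2⟩ | ⟨e1, e2⟩)
        exacts [nF (e1 ▸ k1), nF (e2 ▸ k2)]
    refine key v ((fact1 bs hb cf.vQ).trans (by omega)) ?_ ?_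
    · rcases hu.1 with e | e | e
      · exact Or.inl e
      · right; have := cf.va; rwa [← e] at this
      · right; have := cf.vb; rwa [← e] at this
    · rcases hu.2 with e | e | e
      · exact Or.inl e
      · right; have := cf.va; rwa [← e] at this
      · right; have := cf.vb; rwa [← e] at this

lemma hub {S : V → Finset V} {Z Q F0 F1 : Finset V} {G : SimpleGraph V} (hS : ∀ u, u ∈ S u)
    (hS0 : ∀ u, Low G u → nb G u ⊆ S u)
    (hS' : ∀ u, Low (step HH G) u → nb (step HH G) u ⊆ S u) (c : Calm S Z G (step HH G))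
    (hb : NoBig (step HH (step HH G))) (bs : Base G Q F0) (hcon : G.Preconnected)
    (hZ : ∀ q ∈ Q, ∀ d ∈ S q, ∀ z ∈ S d, z ∈ Z) (h1 : F1.card = 5) (h1' : ∀ u ∈ F1, ¬ Low G u) :
    ∃ z ∈ Z, ∀ F : Finset V, F.card = 5 → G.IsClique (F : Set V) → (∀ u ∈ F, ¬ Low G u) →
      z ∈ F := by
  have lQ : ∀ q ∈ Q, Low G q := fun q hq =>
    (fact1 bs (hb.anti (le_step HH _)) hq).trans (by omega)
  let D : Set V := {w | w ∈ Q ∨ (Low G w ∧ ∃ q ∈ Q, G.Adj q w)}
  have lD : ∀ w ∈ D, Low G w := by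
    rintro w (h | h)
    exacts [lQ w h, h.1]
  obtain ⟨q0, hq0⟩ : Q.Nonempty := Finset.card_pos.1 (by rw [bs.cQ]; omega)
  obtain ⟨w0, hw0⟩ : F1.Nonempty := Finset.card_pos.1 (by omega)
  obtain ⟨d, hd, z, hz, dz⟩ := boundary hcon D (Or.inl hq0) (fun h => h1' w0 hw0 (lD w0 h))
  have zd : z ∈ S d := hS0 d (lD d hd) (mem_nb.2 dz)
  refine ⟨z, ?_, fun F h5 hk hh => ?_⟩
  · rcases hd with h | ⟨-, q, hq, h⟩
    · exact hZ d h d (hS d) z zd
    · exact hZ q hq d (hS0 q (lQ q hq) (mem_nb.2 h)) z zd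
  by_contra zF
  have zQ : z ∉ Q := fun h => hz (Or.inl h)
  have bF : Base G Q F := ⟨bs.cQ, bs.kQ, h5, hk, fun u hu hu' => hh u hu' (lQ u hu)⟩
  have fin : ∀ q ∈ Q, G.Adj q z → False := fun q hq h =>
    hz (Or.inr ⟨fact2 bF hb hq zQ zF h, q, hq, h⟩)
  by_cases dQ : d ∈ Q
  · exact fin d dQ dz
  obtain ⟨hl, q, hq, h⟩ := hd.resolve_left dQ
  have h2 := bF.mv1 hq dQ (fun h => hh d h hl) zQ zF h dz
  exact fin q hq (c.c1 q q z (hS q) (hS' q (c.c3 q (lQ q hq)) (mem_nb.2 h2)) h2)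

lemma window {S : V → Finset V} {Z Q F0 : Finset V} {v a b : V} {G0 G1 G2 G3 G4 : SimpleGraph V}
    (e1 : G1 = step HH G0) (e2 : G2 = step HH G1) (e3 : G3 = step HH G2) (e4 : G4 = step HH G3)
    (hS : ∀ u, u ∈ S u) (s1 : ∀ u, Low G1 u → nb G1 u ⊆ S u) (s2 : ∀ u, Low G2 u → nb G2 u ⊆ S u)
    (s3 : ∀ u, Low G3 u → nb G3 u ⊆ S u) (s4 : ∀ u, Low G4 u → nb G4 u ⊆ S u)
    (c : Calm S Z G0 G4) (hb : NoBig (step HH G4)) (cf : Conf G0 Q v a b F0)
    (hcon : G0.Preconnected) (hZ : ∀ q ∈ Q, ∀ d ∈ S q, ∀ z ∈ S d, z ∈ Z) : G2 = G1 := by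
  classical
  have l1 : G0 ≤ G1 := e1 ▸ le_step HH G0
  have l2 : G1 ≤ G2 := e2 ▸ le_step HH G1
  have l3 : G2 ≤ G3 := e3 ▸ le_step HH G2
  have l4 : G3 ≤ G4 := e4 ▸ le_step HH G3
  have l5 : G4 ≤ step HH G4 := le_step HH G4
  have b4 : NoBig G4 := hb.anti l5
  have b3 : NoBig G3 := b4.anti l4
  have b2 : NoBig G2 := b3.anti l3
  have b1 : NoBig G1 := b2.anti l2
  have bs : Base G0 Q F0 := ⟨cf.cQ, cf.kQ, cf.cF, cf.kF, cf.dQ⟩
  have lQ : ∀ q ∈ Q, Low G0 q := fun q hq => (fact1 bs (e1 ▸ b1) hq).trans (by omega)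
  have la : Low G0 a := fact2 bs (by rw [← e1, ← e2]; exact b2) cf.vQ cf.aQ cf.aF cf.va
  have lb : Low G0 b := fact2 bs (by rw [← e1, ← e2]; exact b2) cf.vQ cf.bQ cf.bF cf.vb
  refine le_antisymm (fun x y h => ?_) l2
  by_contra hG
  obtain ⟨F, h5, hx, hy, hk, hh, -, -⟩ := pure (Z := Z) hS (G := G1) (e2 ▸ s2)
    (e2 ▸ c.sub l1 (l3.trans l4)) (e2 ▸ b2) (e2 ▸ h) hG
  have hh0 : ∀ u ∈ F, ¬ Low G0 u := fun u hu hl =>
    hh u hu ((c.c3 u hl).anti (l2.trans (l3.trans l4)))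
  have n0 : ¬ (G0 ⊔ edge x y).IsClique (F : Set V) := fun k => hG (e1 ▸ cf.mv3 h5 k hx hy h.ne
    (fun u hu hu' => hh0 u hu' (lQ u hu)) (fun k => hh0 a k la) (fun k => hh0 b k lb))
  obtain ⟨p, hp, q, hq, hpq, npq⟩ : ∃ p ∈ F, ∃ q ∈ F, p ≠ q ∧ ¬ (G0 ⊔ edge x y).Adj p q := by
    by_contra hc
    push Not at hc
    exact n0 fun p hp q hq hne => hc p hp q hq hne
  have a1 : G1.Adj p q := by
    rcases hk hp hq hpq with k | k
    · exact k
    · exact absurd (Or.inr k) npq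
  have a0 : ¬ G0.Adj p q := fun k => npq (Or.inl k)
  obtain ⟨F', h5', hp', hq', hk', hh', pZ, qZ⟩ := pure (Z := Z) hS (G := G0) (e1 ▸ s1)
    (e1 ▸ c.sub le_rfl (l2.trans (l3.trans l4))) (e1 ▸ b1) (e1 ▸ a1) a0
  have k1 : G1.IsClique (F' : Set V) := hk'.mono (sup_edge_le l1 a1)
  have k2 : G2.IsClique (F : Set V) := hk.mono (sup_edge_le l2 h)
  have hi3 : ∀ u, ¬ Low G0 u → ¬ Low G3 u := fun u k k' => k (k'.anti (l1.trans (l2.trans l3)))
  obtain ⟨z, zZ, hz⟩ := hub (F1 := F) hS s3 (e4 ▸ s4) (e4 ▸ c.sub (l1.trans (l2.trans l3)) le_rfl)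
    (e4 ▸ hb) (bs.mono (l1.trans (l2.trans l3))) (hcon.mono (l1.trans (l2.trans l3))) hZ h5
    (fun u hu => hi3 u (hh0 u hu))
  have zF : z ∈ F := hz F h5 (k2.mono l3) fun u hu => hi3 u (hh0 u hu)
  have zF' : z ∈ F' := hz F' h5' (k1.mono (l2.trans l3)) fun u hu => hi3 u (hh' u hu)
  obtain ⟨x', hx', nx'⟩ : ∃ x' ∈ F', x' ∉ F := by
    by_contra hc
    push Not at hc
    have : F' = F := Finset.eq_of_subset_of_card_le hc (by omega)
    exact hG (k1 (this ▸ hx) (this ▸ hy) h.ne)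
  have zp : z ≠ p := fun e => pZ (e ▸ zZ)
  have zq : z ≠ q := fun e => qZ (e ▸ zZ)
  have adj : ∀ u ∈ F, G3.Adj x' u := by
    intro u hu
    have ne : x' ≠ u := fun e => nx' (e ▸ hu)
    by_cases uF : u ∈ F'
    · exact l3 (l2 (k1 hx' uF ne))
    have uz : u ≠ z := fun e => uF (e ▸ zF')
    have up : u ≠ p := fun e => uF (e ▸ hp')
    have uq : u ≠ q := fun e => uF (e ▸ hq')
    have sub : ({u, z, p, q} : Finset V) ⊆ F := by
      intro w hw
      simp only [Finset.mem_insert, Finset.mem_singleton] at hw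
      rcases hw with rfl | rfl | rfl | rfl <;> assumption
    have c4 : ({u, z, p, q} : Finset V).card = 4 := by
      rw [Finset.card_insert_of_notMem (by simp [uz, up, uq]),
        Finset.card_insert_of_notMem (by simp [zp, zq]), Finset.card_pair hpq]
    have hiY : ∀ w ∈ insert x' ({u, z, p, q} : Finset V), ¬ Low G0 w := by
      intro w hw
      rcases Finset.mem_insert.1 hw with rfl | hw
      exacts [hh' _ hx', hh0 _ (sub hw)]
    rw [e3]
    refine (cf.mono (l1.trans l2)).mv3 (Y := insert x' {u, z, p, q}) ?_ ?_ (by simp) (by simp) ne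
      (fun w hw hw' => hiY w hw' (lQ w hw)) (fun k => hiY a k la) (fun k => hiY b k lb)
    · rw [Finset.card_insert_of_notMem fun k => nx' (sub k), c4]
    · rw [Finset.coe_insert]
      refine ((k2.subset (Finset.coe_subset.2 sub)).mono le_sup_left).insert fun w hw hne => ?_
      simp only [Finset.coe_insert, Finset.coe_singleton, Set.mem_insert_iff,
        Set.mem_singleton_iff] at hw
      rcases hw with rfl | rfl | rfl | rfl
      · exact sup_edge_adj G2 hne
      · exact Or.inl (l2 (k1 hx' zF' hne))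
      · exact Or.inl (l2 (k1 hx' hp' hne))
      · exact Or.inl (l2 (k1 hx' hq' hne))
  have := hz (insert x' (F.erase z)) (by
      rw [Finset.card_insert_of_notMem fun k => nx' (Finset.mem_of_mem_erase k),
        Finset.card_erase_of_mem zF, h5])
    (by
      rw [Finset.coe_insert]
      exact ((k2.mono l3).subset (Finset.coe_subset.2 (Finset.erase_subset _ _))).insert
        fun w hw _ => adj w (Finset.mem_of_mem_erase hw))
    (by
      intro w hw
      rcases Finset.mem_insert.1 hw with rfl | hw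
      exacts [hi3 _ (hh' _ hx'), hi3 _ (hh0 _ (Finset.mem_of_mem_erase hw))])
  rcases Finset.mem_insert.1 this with e | k
  · exact nx' (e ▸ zF)
  · simp at k

lemma proc_reach (G : SimpleGraph V) (t : ℕ) {x y : V} (h : (proc HH G t).Reachable x y) :
    G.Reachable x y := by
  induction t generalizing x y with
  | zero => exact h
  | succ t ih =>
    rw [proc_succ] at h
    obtain ⟨p⟩ := h
    induction p with
    | nil => rfl
    | cons h _ ih2 => exact (ih (step_reach _ h)).trans ih2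

lemma phaseB (G : SimpleGraph V) (hcon : G.Preconnected) (t : ℕ) (h : ¬ NoBig (proc HH G t)) :
    tau HH G ≤ t + Fintype.card V + 1 := by
  have key : ∀ k, ∃ Y : Finset V, (proc HH G (t + k)).IsClique (Y : Set V) ∧ 13 ≤ Y.card ∧
      (Y = Finset.univ ∨ k ≤ Y.card) := by
    intro k
    induction k with
    | zero =>
      unfold NoBig at h
      push Not at h
      obtain ⟨Y, h1, h2⟩ := h
      exact ⟨Y, h1, h2, Or.inr (by omega)⟩
    | succ k ih =>
      obtain ⟨Y, h1, h2, h3⟩ := ih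
      by_cases e : Y = Finset.univ
      · exact ⟨Y, h1.mono (proc_mono _ _ (by omega)), h2, Or.inl e⟩
      · obtain ⟨Y', k1, k2⟩ := grow (hcon.mono (proc_mono HH G (Nat.zero_le _))) h1 h2 e
        refine ⟨Y', by rw [← add_assoc, proc_succ]; exact k1, by omega, Or.inr ?_⟩
        have := h3.resolve_left e
        omega
  obtain ⟨Y, h1, -, h3⟩ := key (Fintype.card V + 1)
  have h4 := Finset.card_le_univ Y
  have e : Y = Finset.univ := h3.resolve_right (by omega)
  have top : proc HH G (t + (Fintype.card V + 1)) = ⊤ := by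
    refine top_le_iff.1 fun x y hxy => h1 ?_ ?_ hxy <;> simp [e]
  refine tau_le _ _ _ (le_antisymm (proc_mono _ _ (by omega)) ?_)
  rw [← add_assoc] at top
  rw [top]
  exact le_top

theorem upper (G : SimpleGraph V) (hp : Perc HH G) :
    tau HH G ≤ 43813 * Fintype.card V + 7 := by
  classical
  have hcon : G.Preconnected := fun x y => by
    refine proc_reach G (tau HH G) ?_
    rw [hp]
    by_cases e : x = y
    · rw [e]
    · exact Adj.reachable e
  by_cases h0 : proc HH G 0 = proc HH G 1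
  · exact (tau_le _ _ _ h0).trans (Nat.zero_le _)
  obtain ⟨x, y, h1, h2⟩ : ∃ x y, (step HH G).Adj x y ∧ ¬ G.Adj x y := by
    by_contra hc
    push Not at hc
    exact h0 (le_antisymm (le_step HH G) hc)
  obtain ⟨Q, v, a, b, F0, cf, -⟩ := inv G h1 h2
  have cf1 : Conf (proc HH G 1) Q v a b F0 := cf.mono (sup_edge_le (le_step HH G) h1)
  choose S S1 S2 S3 using star (proc HH G) (proc_mono HH G)
  let Z : Finset V := Q.biUnion fun q => (S q).biUnion S
  have hZ : ∀ q ∈ Q, ∀ d ∈ S q, ∀ z ∈ S d, z ∈ Z := fun q hq d hd z hz =>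
    Finset.mem_biUnion.2 ⟨q, hq, Finset.mem_biUnion.2 ⟨d, hd, hz⟩⟩
  have cZ : Z.card ≤ 7 * (37 * 37) := by
    rw [← cf.cQ]
    refine Finset.card_biUnion_le_card_mul _ _ _ fun q _ => ?_
    exact (Finset.card_biUnion_le_card_mul _ _ 37 fun d _ => S1 d).trans
      (Nat.mul_le_mul_right _ (S1 q))
  let E : Finset (V × V) := (Finset.univ.biUnion fun u => S u ×ˢ S u) ∪ Z ×ˢ Finset.univ
  have cE : E.card ≤ 10952 * Fintype.card V := by
    have k1 : (Finset.univ.biUnion fun u => S u ×ˢ S u).card ≤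
        (Finset.univ : Finset V).card * (37 * 37) :=
      Finset.card_biUnion_le_card_mul _ _ _ fun u _ => by
        rw [Finset.card_product]; exact Nat.mul_le_mul (S1 u) (S1 u)
    have k2 : (Z ×ˢ (Finset.univ : Finset V)).card ≤ 7 * (37 * 37) * Fintype.card V := by
      rw [Finset.card_product, Finset.card_univ]; exact Nat.mul_le_mul_right _ cZ
    have k3 := Finset.card_union_le (Finset.univ.biUnion fun u => S u ×ˢ S u)
      (Z ×ˢ (Finset.univ : Finset V))
    rw [Finset.card_univ] at k1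
    show Finset.card (_ ∪ _) ≤ _
    omega
  let A : ℕ → Finset (V × V) := fun t => E.filter fun p => (proc HH G t).Adj p.1 p.2
  let B : ℕ → Finset V := fun t => Finset.univ.filter fun u => ¬ Low (proc HH G t) u
  have bd : ∀ t, (A t).card + (B t).card ≤ 10953 * Fintype.card V := fun t => by
    have k1 : (A t).card ≤ E.card := Finset.card_filter_le _ _
    have k2 : (B t).card ≤ Fintype.card V := Finset.card_le_univ _
    omega
  have mA : ∀ s t, s ≤ t → A s ⊆ A t := fun s t h p hp' =>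
    Finset.mem_filter.2 ⟨(Finset.mem_filter.1 hp').1,
      proc_mono HH G h (Finset.mem_filter.1 hp').2⟩
  have mB : ∀ s t, s ≤ t → B s ⊆ B t := fun s t h u hu =>
    Finset.mem_filter.2 ⟨Finset.mem_univ _,
      fun k => (Finset.mem_filter.1 hu).2 (k.anti (proc_mono HH G h))⟩
  have calm : ∀ s t, s ≤ t → (A t).card + (B t).card ≤ (A s).card + (B s).card →
      Calm S Z (proc HH G s) (proc HH G t) := by
    intro s t h hc
    have k1 := Finset.card_le_card (mA s t h)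
    have k2 := Finset.card_le_card (mB s t h)
    have eA : A s = A t := Finset.eq_of_subset_of_card_le (mA s t h) (by omega)
    have eB : B s = B t := Finset.eq_of_subset_of_card_le (mB s t h) (by omega)
    have kE : ∀ p ∈ E, (proc HH G t).Adj p.1 p.2 → (proc HH G s).Adj p.1 p.2 := fun p hp' k => by
      have : p ∈ A s := eA ▸ Finset.mem_filter.2 ⟨hp', k⟩
      exact (Finset.mem_filter.1 this).2
    refine ⟨fun u x y hx hy k => kE (x, y) ?_ k, fun x y hx k => kE (x, y) ?_ k, fun u hu => ?_⟩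
    · exact Finset.mem_union_left _ (Finset.mem_biUnion.2 ⟨u, Finset.mem_univ _,
        Finset.mem_product.2 ⟨hx, hy⟩⟩)
    · exact Finset.mem_union_right _ (Finset.mem_product.2 ⟨hx, Finset.mem_univ _⟩)
    · by_contra k
      have : u ∈ B s := eB ▸ Finset.mem_filter.2 ⟨Finset.mem_univ _, k⟩
      exact (Finset.mem_filter.1 this).2 hu
  have main : ∀ k, NoBig (proc HH G (4 * k + 2)) → 4 * k ≤ tau HH G →
      k ≤ (A (4 * k + 1)).card + (B (4 * k + 1)).card := by
    intro k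
    induction k with
    | zero => intro _ _; exact Nat.zero_le _
    | succ k ih =>
      intro hb ht
      have i1 := ih (hb.anti (proc_mono HH G (by omega))) (by omega)
      by_contra hc
      have c := calm (4 * k + 1) (4 * k + 1 + 1 + 1 + 1 + 1) (by omega) (by
        have : 4 * k + 1 + 1 + 1 + 1 + 1 = 4 * (k + 1) + 1 := by ring
        rw [this]; omega)
      have w := window (proc_succ HH G (4 * k + 1)) (proc_succ HH G _) (proc_succ HH G _)
        (proc_succ HH G _) S2 (fun u => S3 u _) (fun u => S3 u _) (fun u => S3 u _)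
        (fun u => S3 u _) c (by
          rw [← proc_succ]
          exact hb.anti (proc_mono HH G (by omega)))
        (cf1.mono (proc_mono HH G (by omega))) (hcon.mono (proc_mono HH G (Nat.zero_le _))) hZ
      have := tau_le HH G _ w.symm
      omega
  have m := main (10953 * Fintype.card V + 1)
  have b := bd (4 * (10953 * Fintype.card V + 1) + 1)
  by_cases hb : NoBig (proc HH G (4 * (10953 * Fintype.card V + 1) + 2))
  · by_contra hc
    have := m hb (by omega)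
    omega
  · have := phaseB G hcon _ hb
    omega

end Pool.Agent.H.MP_000f96_co
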