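import Pool.Agent.H.MP_000f96_co.B

set_option autoImplicit false
open SimpleGraph

namespace Pool.Agent.H.MP_000f96_co

section ext
variable {V : Type} {G G' : SimpleGraph V} {B T : Finset V}

lemma ext_old (hG' : ∀ u w, G'.Adj u w → G.Adj u w ∨ (u ∈ B ∧ w ∈ B))
    (kT : G.IsClique (T : Set V)) {Y : Finset V}
    (h : ¬ ∃ u ∈ Y, ∃ u' ∈ Y, u ∈ B ∧ u' ∈ B ∧ u ≠ u' ∧ ¬ (u ∈ T ∧ u' ∈ T)) :
    ∀ u ∈ Y, ∀ w ∈ Y, G'.Adj u w → G.Adj u w := by
  intro u hu w hw huw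
  rcases hG' u w huw with k | k
  · exact k
  · by_contra hn
    exact h ⟨u, hu, w, hw, k.1, k.2, huw.ne, fun e => hn (kT e.1 e.2 huw.ne)⟩

lemma ext3 (hG' : ∀ u w, G'.Adj u w → G.Adj u w ∨ (u ∈ B ∧ w ∈ B))
    (kT : G.IsClique (T : Set V)) (cB : B.card = 5)
    (far : ∀ u ∈ B, ∀ u' ∈ B, u ≠ u' → ¬ (u ∈ T ∧ u' ∈ T) → ∀ w, ¬ (G.Adj w u ∧ G.Adj w u'))
    (h3 : ∀ Y : Finset V, G.IsClique (Y : Set V) → Y.card ≤ 5) (Y : Finset V)
    (hY : G'.IsClique (Y : Set V)) : Y.card ≤ 5 := by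
  by_cases h : ∃ u ∈ Y, ∃ u' ∈ Y, u ∈ B ∧ u' ∈ B ∧ u ≠ u' ∧ ¬ (u ∈ T ∧ u' ∈ T)
  · obtain ⟨u, hu, u', hu', uB, uB', ne, nT⟩ := h
    rw [← cB]
    refine Finset.card_le_card fun w hw => ?_
    by_contra wB
    refine far u uB u' uB' ne nT w ⟨?_, ?_⟩
    · exact (hG' w u (hY hw hu fun e => wB (e ▸ uB))).resolve_right fun e => wB e.1
    · exact (hG' w u' (hY hw hu' fun e => wB (e ▸ uB'))).resolve_right fun e => wB e.1
  · exact h3 Y fun u hu w hw ne => ext_old hG' kT h u hu w hw (hY hu hw ne)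

lemma ext1a (hG' : ∀ u w, G'.Adj u w → G.Adj u w ∨ (u ∈ B ∧ w ∈ B)) (cT : T.card ≤ 2)
    (far : ∀ u ∈ B, ∀ u' ∈ B, u ≠ u' → ¬ (u ∈ T ∧ u' ∈ T) → ∀ w, ¬ (G.Adj w u ∧ G.Adj w u'))
    {Y : Finset V} {x0 y0 : V} (cY : Y.card = 5) (hY : (G' ⊔ edge x0 y0).IsClique (Y : Set V))
    (hx : x0 ∈ Y) (xB : x0 ∉ B) (hO : ∀ w ∈ Y, w ∉ B → w = x0) : False := by
  classical
  let W := (Y.erase x0).erase y0
  have cW : 3 ≤ W.card := by
    have k1 := Finset.pred_card_le_card_erase (s := Y.erase x0) (a := y0)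
    have k2 := Finset.pred_card_le_card_erase (s := Y) (a := x0)
    show 3 ≤ ((Y.erase x0).erase y0).card
    omega
  have mW : ∀ u ∈ W, u ∈ B ∧ G.Adj x0 u := by
    intro u hu
    obtain ⟨k1, k2⟩ := Finset.mem_erase.1 hu
    obtain ⟨k2, k3⟩ := Finset.mem_erase.1 k2
    refine ⟨by_contra fun k => k2 (hO u k3 k), ?_⟩
    have := adj_of_sup (hY hx k3 k2.symm) (by tauto)
    exact (hG' _ _ this).resolve_right fun e => xB e.1
  have : W ⊆ T := by
    intro u hu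
    have : ({u} : Finset V).card < W.card := by rw [Finset.card_singleton]; omega
    obtain ⟨u', hu', ne⟩ := Finset.exists_mem_notMem_of_card_lt_card this
    have ne' : u ≠ u' := fun e => ne (by simp [e])
    by_contra k
    exact far u (mW u hu).1 u' (mW u' hu').1 ne' (fun e => k e.1) x0 ⟨(mW u hu).2, (mW u' hu').2⟩
  have := Finset.card_le_card this
  omega

lemma ext1 (hG' : ∀ u w, G'.Adj u w → G.Adj u w ∨ (u ∈ B ∧ w ∈ B))
    (kT : G.IsClique (T : Set V)) (cT : T.card ≤ 2) (cB : B.card = 5)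
    (far : ∀ u ∈ B, ∀ u' ∈ B, u ≠ u' → ¬ (u ∈ T ∧ u' ∈ T) → ∀ w, ¬ (G.Adj w u ∧ G.Adj w u'))
    {Y : Finset V} {x0 y0 : V} (cY : Y.card = 5) (hY : (G' ⊔ edge x0 y0).IsClique (Y : Set V)) :
    Y = B ∨ (G ⊔ edge x0 y0).IsClique (Y : Set V) := by
  by_cases h : ∃ u ∈ Y, ∃ u' ∈ Y, u ∈ B ∧ u' ∈ B ∧ u ≠ u' ∧ ¬ (u ∈ T ∧ u' ∈ T)
  · obtain ⟨u, hu, u', hu', uB, uB', ne, nT⟩ := h
    left
    have key : ∀ w ∈ Y, w ∉ B → (w = x0 ∧ y0 ∈ B) ∨ (w = y0 ∧ x0 ∈ B) := by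
      intro w hw wB
      by_contra hc
      refine far u uB u' uB' ne nT w ⟨?_, ?_⟩
      · refine (hG' w u (adj_of_sup (hY hw hu fun e => wB (e ▸ uB)) ?_)).resolve_right
          fun e => wB e.1
        rintro (⟨e1, e2⟩ | ⟨e1, e2⟩)
        exacts [hc (Or.inl ⟨e1, e2 ▸ uB⟩), hc (Or.inr ⟨e1, e2 ▸ uB⟩)]
      · refine (hG' w u' (adj_of_sup (hY hw hu' fun e => wB (e ▸ uB')) ?_)).resolve_right
          fun e => wB e.1
        rintro (⟨e1, e2⟩ | ⟨e1, e2⟩)
        exacts [hc (Or.inl ⟨e1, e2 ▸ uB'⟩), hc (Or.inr ⟨e1, e2 ▸ uB'⟩)]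
    refine Finset.eq_of_subset_of_card_le (fun w hw => ?_) (by omega)
    by_contra wB
    rcases key w hw wB with ⟨e, k⟩ | ⟨e, k⟩
    · refine ext1a hG' cT far cY hY (e ▸ hw) (e ▸ wB) fun w' hw' wB' => ?_
      rcases key w' hw' wB' with ⟨e', -⟩ | ⟨e', -⟩
      · exact e'
      · exact absurd (e' ▸ k) wB'
    · have hY' : (G' ⊔ edge y0 x0).IsClique (Y : Set V) := by
        have : edge y0 x0 = edge x0 y0 := by unfold edge; rw [Sym2.eq_swap]
        rw [this]; exact hY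
      refine ext1a hG' cT far cY hY' (e ▸ hw) (e ▸ wB) fun w' hw' wB' => ?_
      rcases key w' hw' wB' with ⟨e', -⟩ | ⟨e', -⟩
      · exact absurd (e' ▸ k) wB'
      · exact e'
  · right
    intro u hu w hw ne
    rcases hY hu hw ne with k | k
    · exact Or.inl (ext_old hG' kT h u hu w hw k)
    · exact Or.inr k

end ext

variable {V : Type} [Fintype V]

def Far (G : SimpleGraph V) (u w : V) : Prop :=
  u ≠ w ∧ ¬ G.Adj u w ∧ ∀ z, ¬ (G.Adj z u ∧ G.Adj z w)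

lemma pick (G : SimpleGraph V) (S L : Finset V) (t D h : ℕ) (hD : ∀ u, (nb G u).card ≤ D)
    (hs : ∑ u, (nb G u).card ≤ (t + 1) * h) (cS : S.card = 9) (cL : L.card ≤ 4)
    (hn : 9 + h + 4 * (1 + D + D * D) < Fintype.card V) :
    ∃ p, p ∉ S ∧ (nb G p).card ≤ t ∧ ∀ u ∈ L, Far G u p := by
  classical
  let Hv := Finset.univ.filter fun u => t < (nb G u).card
  have c1 : Hv.card ≤ h := by
    have k1 : Hv.card • (t + 1) ≤ ∑ u ∈ Hv, (nb G u).card :=
      Finset.card_nsmul_le_sum _ _ _ fun u hu => (Finset.mem_filter.1 hu).2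
    have k2 : ∑ u ∈ Hv, (nb G u).card ≤ ∑ u, (nb G u).card :=
      Finset.sum_le_sum_of_subset (Finset.subset_univ _)
    rw [smul_eq_mul, mul_comm] at k1
    exact Nat.le_of_mul_le_mul_left (k1.trans (k2.trans hs)) (by omega)
  let fb : V → Finset V := fun u => insert u (nb G u ∪ (nb G u).biUnion (nb G))
  have c2 : ∀ u, (fb u).card ≤ 1 + D + D * D := fun u => by
    have k1 := Finset.card_insert_le u (nb G u ∪ (nb G u).biUnion (nb G))
    have k2 := Finset.card_union_le (nb G u) ((nb G u).biUnion (nb G))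
    have k3 := Finset.card_biUnion_le_card_mul (nb G u) (nb G) D fun z _ => hD z
    have k4 := Nat.mul_le_mul_right D (hD u)
    have k5 := hD u
    show (insert u (nb G u ∪ (nb G u).biUnion (nb G))).card ≤ _
    omega
  have c3 : (L.biUnion fb).card ≤ 4 * (1 + D + D * D) :=
    (Finset.card_biUnion_le_card_mul _ _ _ fun u _ => c2 u).trans (Nat.mul_le_mul_right _ cL)
  have c4 : (S ∪ Hv ∪ L.biUnion fb).card < (Finset.univ : Finset V).card := by
    have k1 := Finset.card_union_le (S ∪ Hv) (L.biUnion fb)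
    have k2 := Finset.card_union_le S Hv
    rw [Finset.card_univ]
    omega
  obtain ⟨p, -, hp⟩ := Finset.exists_mem_notMem_of_card_lt_card c4
  simp only [Finset.mem_union, not_or, Finset.mem_biUnion, not_exists, not_and] at hp
  refine ⟨p, hp.1.1, ?_, fun u hu => ?_⟩
  · by_contra k
    exact hp.1.2 (Finset.mem_filter.2 ⟨Finset.mem_univ _, by omega⟩)
  · have k := hp.2 u hu
    simp only [fb, Finset.mem_insert, Finset.mem_union, mem_nb, Finset.mem_biUnion, not_or,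
      not_exists, not_and] at k
    exact ⟨fun e => k.1 e.symm, k.2.1, fun z hz => k.2.2 z hz.1.symm hz.2⟩

def U (B : ℕ → Finset V) (i : ℕ) : SimpleGraph V where
  Adj u w := u ≠ w ∧ ∃ k ≤ i, u ∈ B k ∧ w ∈ B k
  symm := ⟨fun _ _ ⟨h, k, hk, h1, h2⟩ => ⟨h.symm, k, hk, h2, h1⟩⟩
  loopless := ⟨fun _ h => h.1 rfl⟩

structure Good (S : Finset V) (t i : ℕ) (x y : ℕ → V) (B : ℕ → Finset V) : Prop where
  c5 : ∀ k ≤ i, (B k).card = 5
  dS : ∀ k ≤ i, ∀ u ∈ B k, u ∉ S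
  xB : ∀ k ≤ i, x k ∈ B k ∧ y k ∈ B k ∧ x k ≠ y k
  nx : ∀ k, k + 1 ≤ i → x k ∈ B (k + 1) ∧ y k ∈ B (k + 1)
  old : ∀ k l, k < l → l ≤ i → ¬ (x l ∈ B k ∧ y l ∈ B k)
  i1 : ∀ (Y : Finset V) (x0 y0 : V), Y.card = 5 → (U B i ⊔ edge x0 y0).IsClique (Y : Set V) →
    ∃ k ≤ i, Y = B k
  i3 : ∀ Y : Finset V, (U B i).IsClique (Y : Set V) → Y.card ≤ 5
  d1 : ∀ u, (nb (U B i) u).card ≤ t + 10
  d2 : (nb (U B i) (x i)).card ≤ t + 5 ∧ (nb (U B i) (y i)).card ≤ t + 5
  d3 : ∑ u, (nb (U B i) u).card ≤ 25 * (i + 1)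

lemma deg_ext {G G' : SimpleGraph V} {B : Finset V}
    (hG' : ∀ u w, G'.Adj u w → G.Adj u w ∨ (u ∈ B ∧ w ∈ B)) (cB : B.card = 5) :
    (∀ u ∈ B, (nb G' u).card ≤ (nb G u).card + 5) ∧ (∀ u ∉ B, (nb G' u).card ≤ (nb G u).card) ∧
      ∑ u, (nb G' u).card ≤ ∑ u, (nb G u).card + 25 := by
  classical
  have h1 : ∀ u ∈ B, (nb G' u).card ≤ (nb G u).card + 5 := fun u _ => by
    rw [← cB]
    refine (Finset.card_le_card fun w hw => ?_).trans (Finset.card_union_le _ _)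
    rcases hG' u w (mem_nb.1 hw) with k | k
    · exact Finset.mem_union_left _ (mem_nb.2 k)
    · exact Finset.mem_union_right _ k.2
  have h2 : ∀ u ∉ B, (nb G' u).card ≤ (nb G u).card := fun u hu =>
    Finset.card_le_card fun w hw =>
      mem_nb.2 ((hG' u w (mem_nb.1 hw)).resolve_right fun e => hu e.1)
  refine ⟨h1, h2, ?_⟩
  have h3 : ∑ u, (nb G' u).card ≤ ∑ u, ((nb G u).card + if u ∈ B then 5 else 0) :=
    Finset.sum_le_sum fun u _ => by
      split_ifs with k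
      exacts [h1 u k, h2 u k]
  rw [Finset.sum_add_distrib, Finset.sum_ite_mem, Finset.univ_inter, Finset.sum_const, cB] at h3
  exact h3

lemma good0 (S : Finset V) (t : ℕ) (cS : S.card = 9) (hn : 14 ≤ Fintype.card V) :
    ∃ x y B, Good S t 0 x y B := by
  classical
  obtain ⟨B, hB, cB⟩ := Finset.exists_subset_card_eq (s := Sᶜ) (n := 5)
    (by rw [Finset.card_compl]; omega)
  obtain ⟨x, hx, y, hy, xy⟩ := Finset.one_lt_card.1 (show 1 < B.card by omega)
  have hG' : ∀ u w, (U (fun _ => B) 0).Adj u w → (⊥ : SimpleGraph V).Adj u w ∨ (u ∈ B ∧ w ∈ B) :=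
    fun u w ⟨_, _, _, h⟩ => Or.inr h
  obtain ⟨e1, e2, e3⟩ := deg_ext hG' cB
  have e0 : ∀ u, nb (⊥ : SimpleGraph V) u = ∅ := fun u => by ext; simp
  simp only [e0, Finset.card_empty, Finset.sum_const_zero] at e1 e2 e3
  refine ⟨fun _ => x, fun _ => y, fun _ => B, fun _ _ => cB,
    fun _ _ u hu => Finset.mem_compl.1 (hB hu), fun _ _ => ⟨hx, hy, xy⟩, fun _ _ => ⟨hx, hy⟩,
    fun k l h1 h2 => by omega, fun Y x0 y0 cY hY => ⟨0, le_rfl, ?_⟩, fun Y hY => ?_, fun u => ?_,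
    ⟨(e1 x hx).trans (by omega), (e1 y hy).trans (by omega)⟩, e3⟩
  · refine Finset.eq_of_subset_of_card_le (fun u hu => ?_) (by omega)
    have : ({u, x0, y0} : Finset V).card < Y.card := lt_of_le_of_lt Finset.card_le_three (by omega)
    obtain ⟨w, hw, ne⟩ := Finset.exists_mem_notMem_of_card_lt_card this
    simp only [Finset.mem_insert, Finset.mem_singleton, not_or] at ne
    obtain ⟨_, _, _, k⟩ := adj_of_sup (hY hw hu ne.1) (by tauto)
    exact k.2
  · by_contra hc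
    have : Y ⊆ B := by
      intro u hu
      have : ({u} : Finset V).card < Y.card := by rw [Finset.card_singleton]; omega
      obtain ⟨w, hw, ne⟩ := Finset.exists_mem_notMem_of_card_lt_card this
      obtain ⟨_, _, _, k⟩ := hY hw hu (by simpa using ne)
      exact k.2
    have := Finset.card_le_card this
    omega
  · by_cases k : u ∈ B
    · exact (e1 u k).trans (by omega)
    · exact (e2 u k).trans (by omega)

lemma Good.next {S : Finset V} {t i h : ℕ} {x y : ℕ → V} {B : ℕ → Finset V}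
    (g : Good S t i x y B) (cS : S.card = 9) (hs : 25 * (i + 1) ≤ (t + 1) * h)
    (hn : 9 + h + 4 * (1 + (t + 10) + (t + 10) * (t + 10)) < Fintype.card V) :
    ∃ x y B, Good S t (i + 1) x y B := by
  classical
  obtain ⟨p, pS, pd, pf⟩ := pick (U B i) S {x i, y i} t _ h g.d1 (g.d3.trans hs) cS
    (Finset.card_le_two.trans (by omega)) hn
  obtain ⟨q, qS, qd, qf⟩ := pick (U B i) S {x i, y i, p} t _ h g.d1 (g.d3.trans hs) cS
    (Finset.card_le_three.trans (by omega)) hn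
  obtain ⟨r, rS, rd, rf⟩ := pick (U B i) S {x i, y i, p, q} t _ h g.d1 (g.d3.trans hs) cS
    Finset.card_le_four hn
  simp only [Finset.mem_insert, Finset.mem_singleton, forall_eq_or_imp, forall_eq] at pf qf rf
  obtain ⟨xi, yi, xyi⟩ := g.xB i le_rfl
  let N : Finset V := {x i, y i, p, q, r}
  have cN : N.card = 5 := by
    show ({x i, y i, p, q, r} : Finset V).card = 5
    rw [Finset.card_insert_of_notMem (by simp [xyi, pf.1.1, qf.1.1, rf.1.1]),
      Finset.card_insert_of_notMem (by simp [pf.2.1, qf.2.1.1, rf.2.1.1]),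
      Finset.card_insert_of_notMem (by simp [qf.2.2.1, rf.2.2.1.1]), Finset.card_pair rf.2.2.2.1]
  have mN : ∀ u, u ∈ N ↔ u = x i ∨ u = y i ∨ u = p ∨ u = q ∨ u = r := fun u => by simp [N]
  let B' : ℕ → Finset V := fun k => if k ≤ i then B k else N
  let x' : ℕ → V := fun k => if k ≤ i then x k else p
  let y' : ℕ → V := fun k => if k ≤ i then y k else q
  have b1 : ∀ k ≤ i, B' k = B k := fun k hk => if_pos hk
  have b2 : B' (i + 1) = N := if_neg (by omega)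
  have x1 : ∀ k ≤ i, x' k = x k := fun k hk => if_pos hk
  have x2 : x' (i + 1) = p := if_neg (by omega)
  have y1 : ∀ k ≤ i, y' k = y k := fun k hk => if_pos hk
  have y2 : y' (i + 1) = q := if_neg (by omega)
  have cs : ∀ k ≤ i + 1, k ≤ i ∨ k = i + 1 := fun k hk => by omega
  have hG' : ∀ u w, (U B' (i + 1)).Adj u w → (U B i).Adj u w ∨ (u ∈ N ∧ w ∈ N) := by
    rintro u w ⟨ne, k, hk, h1⟩
    rcases cs k hk with e | e
    · rw [b1 k e] at h1
      exact Or.inl ⟨ne, k, e, h1⟩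
    · rw [e, b2] at h1
      exact Or.inr h1
  have kT : (U B i).IsClique (({x i, y i} : Finset V) : Set V) := by
    intro u hu w hw ne
    simp only [Finset.coe_insert, Finset.coe_singleton, Set.mem_insert_iff,
      Set.mem_singleton_iff] at hu hw
    refine ⟨ne, i, le_rfl, ?_, ?_⟩
    · rcases hu with rfl | rfl <;> assumption
    · rcases hw with rfl | rfl <;> assumption
  have far : ∀ u ∈ N, ∀ u' ∈ N, u ≠ u' → ¬ (u ∈ ({x i, y i} : Finset V) ∧
      u' ∈ ({x i, y i} : Finset V)) → ∀ w, ¬ ((U B i).Adj w u ∧ (U B i).Adj w u') := by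
    intro u hu u' hu' ne nT w hw
    have hw' := hw.symm
    simp only [Finset.mem_insert, Finset.mem_singleton] at nT
    rw [mN] at hu hu'
    rcases hu with e | e | e | e | e <;> rcases hu' with e' | e' | e' | e' | e' <;>
      rw [e, e'] at ne nT hw hw'
    all_goals first
      | exact ne rfl
      | exact nT ⟨Or.inl rfl, Or.inr rfl⟩
      | exact nT ⟨Or.inr rfl, Or.inl rfl⟩
      | exact pf.1.2.2 w hw | exact pf.2.2.2 w hw
      | exact qf.1.2.2 w hw | exact qf.2.1.2.2 w hw | exact qf.2.2.2.2 w hw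
      | exact rf.1.2.2 w hw | exact rf.2.1.2.2 w hw | exact rf.2.2.1.2.2 w hw
      | exact rf.2.2.2.2.2 w hw
      | exact pf.1.2.2 w hw' | exact pf.2.2.2 w hw'
      | exact qf.1.2.2 w hw' | exact qf.2.1.2.2 w hw' | exact qf.2.2.2.2 w hw'
      | exact rf.1.2.2 w hw' | exact rf.2.1.2.2 w hw' | exact rf.2.2.1.2.2 w hw'
      | exact rf.2.2.2.2.2 w hw'
  obtain ⟨e1, e2, e3⟩ := deg_ext hG' cN
  refine ⟨x', y', B', fun k hk => ?_, fun k hk u hu => ?_, fun k hk => ?_, fun k hk => ?_,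
    fun k l hkl hl => ?_, fun Y x0 y0 cY hY => ?_, ext3 hG' kT cN far g.i3, fun u => ?_, ?_, ?_⟩
  · rcases cs k hk with e | e
    · rw [b1 k e]; exact g.c5 k e
    · rw [e, b2]; exact cN
  · rcases cs k hk with e | e
    · rw [b1 k e] at hu; exact g.dS k e u hu
    · rw [e, b2, mN] at hu
      rcases hu with e | e | e | e | e <;> rw [e]
      exacts [g.dS i le_rfl _ xi, g.dS i le_rfl _ yi, pS, qS, rS]
  · rcases cs k hk with e | e
    · rw [b1 k e, x1 k e, y1 k e]; exact g.xB k e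
    · rw [e, b2, x2, y2]; exact ⟨by simp [N], by simp [N], qf.2.2.1⟩
  · rw [x1 k (by omega), y1 k (by omega)]
    rcases cs (k + 1) hk with e | e
    · rw [b1 _ e]; exact g.nx k e
    · have : k = i := by omega
      rw [this, b2]; exact ⟨by simp [N], by simp [N]⟩
  · rw [b1 k (by omega)]
    rcases cs l hl with e | e
    · rw [x1 l e, y1 l e]; exact g.old k l hkl e
    · rw [e, x2, y2]
      exact fun hh => qf.2.2.2.1 ⟨qf.2.2.1, k, by omega, hh⟩
  · rcases ext1 hG' kT Finset.card_le_two cN far cY hY with e | e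
    · exact ⟨i + 1, le_rfl, by rw [b2, e]⟩
    · obtain ⟨k, hk, e'⟩ := g.i1 Y x0 y0 cY e
      exact ⟨k, by omega, by rw [b1 k hk, e']⟩
  · by_cases k : u ∈ N
    · have := e1 u k
      have := g.d2
      rw [mN] at k
      rcases k with e | e | e | e | e <;> subst e <;> omega
    · exact (e2 u k).trans (g.d1 u)
  · rw [x2, y2]
    have := e1 p (by simp [N])
    have := e1 q (by simp [N])
    omega
  · have := g.d3
    omega

def P (S : Finset V) (T : ℕ) (x y : ℕ → V) (B : ℕ → Finset V) (j : ℕ) : SimpleGraph V where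
  Adj u w := (u ≠ w ∧ u ∈ S ∧ w ∈ S) ∨ ((U B T).Adj u w ∧ ∀ i, j < i → i ≤ T →
    ¬ ((u = x i ∧ w = y i) ∨ (u = y i ∧ w = x i)))
  symm := ⟨fun u w h => h.imp (fun k => ⟨k.1.symm, k.2.2, k.2.1⟩)
    fun k => ⟨k.1.symm, fun i h1 h2 e => k.2 i h1 h2 (by tauto)⟩⟩
  loopless := ⟨fun u h => h.elim (fun k => k.1 rfl) fun k => k.1.ne rfl⟩

section slow
variable {S : Finset V} {t T : ℕ} {x y : ℕ → V} {B : ℕ → Finset V}

lemma Good.uS (g : Good S t T x y B) {u w : V} (h : (U B T).Adj u w) : u ∉ S := by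
  obtain ⟨_, k, hk, h1, _⟩ := h
  exact g.dS k hk u h1

lemma Good.side (g : Good S t T x y B) {j : ℕ} {u w : V} (h : (P S T x y B j).Adj u w) :
    u ∈ S ↔ w ∈ S := by
  rcases h with h | h
  · exact ⟨fun _ => h.2.2, fun _ => h.2.1⟩
  · exact ⟨fun k => absurd k (g.uS h.1), fun k => absurd k (g.uS h.1.symm)⟩

lemma Good.up (g : Good S t T x y B) (j : ℕ) {G : SimpleGraph V} (hG : G ≤ P S T x y B j) :
    step HH G ≤ P S T x y B (j + 1) := by
  classical
  have pm : P S T x y B j ≤ P S T x y B (j + 1) := fun u w h =>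
    h.imp id fun k => ⟨k.1, fun i h1 h2 => k.2 i (by omega) h2⟩
  intro u w h
  by_cases h0 : G.Adj u w
  · exact pm (hG h0)
  obtain ⟨Q, v, a, b, F, cf, hu⟩ := inv G h h0
  have ne := h.ne
  obtain ⟨z, z1, z2, z3, z4⟩ := cf.third hu ne
  have s1 := g.side (hG (adj_of_sup z3 (by tauto)))
  have s2 := g.side (hG (adj_of_sup z4 (by tauto)))
  by_cases uS : u ∈ S
  · exact Or.inl ⟨ne, uS, s2.1 (s1.2 uS)⟩
  have wS : w ∉ S := fun k => uS (s1.1 (s2.2 k))
  have out : ∀ c d, c ∉ S → (G ⊔ edge u w).Adj c d → d ∉ S := by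
    intro c d hc hcd
    rw [sup_adj, edge_adj] at hcd
    rcases hcd with k | ⟨⟨_, e⟩ | ⟨_, e⟩, _⟩
    · exact fun k' => hc ((g.side (hG k)).2 k')
    · rw [e]; exact wS
    · rw [e]; exact uS
  have toU : ∀ c d, c ∉ S → G.Adj c d → (U B T).Adj c d := fun c d hc k =>
    ((hG k).resolve_left fun e => hc e.2.1).1
  have clS : ∀ Y : Finset V, (G ⊔ edge u w).IsClique (Y : Set V) → ∀ c ∈ Y, c ∉ S →
      ∀ d ∈ Y, d ∉ S := by
    intro Y hY c hc cS d hd
    by_cases e : c = d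
    · exact e ▸ cS
    · exact out c d cS (hY hc hd e)
  have fin : ∀ Y : Finset V, Y.card = 5 → u ∈ Y → w ∈ Y → (G ⊔ edge u w).IsClique (Y : Set V) →
      (P S T x y B (j + 1)).Adj u w := by
    intro Y cY uY wY hY
    have oY := clS Y hY u uY uS
    obtain ⟨k, hk, e⟩ := g.i1 Y u w cY fun c hc d hd ne' => (hY hc hd ne').imp
      (toU c d (oY c hc)) id
    subst e
    refine Or.inr ⟨⟨ne, k, hk, uY, wY⟩, fun i h1 h2 e => ?_⟩
    have miss : ∀ l, j < l → l ≤ T → x l ∈ B k → y l ∈ B k →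
        (x l = u ∧ y l = w) ∨ (x l = w ∧ y l = u) := by
      intro l l1 l2 k1 k2
      by_contra hc
      have := hG (adj_of_sup (hY k1 k2 (g.xB l l2).2.2) hc)
      rcases this with k3 | k3
      · exact oY _ k1 k3.2.1
      · exact k3.2 l l1 l2 (Or.inl ⟨rfl, rfl⟩)
    have iB : x i ∈ B k ∧ y i ∈ B k := by
      rcases e with ⟨e1, e2⟩ | ⟨e1, e2⟩
      exacts [⟨e1 ▸ uY, e2 ▸ wY⟩, ⟨e2 ▸ wY, e1 ▸ uY⟩]
    have same : ∀ l m, (x l = u ∧ y l = w) ∨ (x l = w ∧ y l = u) → u ∈ B m → w ∈ B m →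
        x l ∈ B m ∧ y l ∈ B m := by
      rintro l m (⟨e1, e2⟩ | ⟨e1, e2⟩) k1 k2
      exacts [⟨e1 ▸ k1, e2 ▸ k2⟩, ⟨e1 ▸ k2, e2 ▸ k1⟩]
    have back : ∀ l m, (x l = u ∧ y l = w) ∨ (x l = w ∧ y l = u) → x l ∈ B m ∧ y l ∈ B m →
        u ∈ B m ∧ w ∈ B m := by
      rintro l m (⟨e1, e2⟩ | ⟨e1, e2⟩) k1
      exacts [⟨e1 ▸ k1.1, e2 ▸ k1.2⟩, ⟨e2 ▸ k1.2, e1 ▸ k1.1⟩]
    have ei : (x i = u ∧ y i = w) ∨ (x i = w ∧ y i = u) := by tauto
    rcases lt_trichotomy k i with c | c | c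
    · exact g.old k i c h2 iB
    · obtain ⟨l, rfl⟩ : ∃ l, i = l + 1 := ⟨i - 1, by omega⟩
      subst c
      have k1 := g.nx l h2
      have k2 := miss l (by omega) (by omega) k1.1 k1.2
      have k3 := g.xB l (by omega)
      have k4 := back l l k2 ⟨k3.1, k3.2.1⟩
      exact g.old l (l + 1) (by omega) h2 (same _ _ ei k4.1 k4.2)
    · have k3 := g.xB k hk
      have k2 := miss k (by omega) hk k3.1 k3.2.1
      have k5 := g.xB i h2
      have k4 := back i i ei ⟨k5.1, k5.2.1⟩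
      exact g.old i k c hk (same _ _ k2 k4.1 k4.2)
  rcases hu with hu | hu | hu
  · obtain ⟨F', h1, h2, h3⟩ := Finset.exists_subsuperset_card_eq (s := {u, w}) (t := Q) (n := 5)
      (by intro c hc; simp only [Finset.mem_insert, Finset.mem_singleton] at hc
          rcases hc with rfl | rfl
          exacts [hu.1, hu.2])
      (Finset.card_le_two.trans (by omega)) (by rw [cf.cQ]; omega)
    exact fin F' h3 (h1 (by simp)) (h1 (by simp)) (cf.kQ.subset h2)
  · exact fin F cf.cF hu.1 hu.2 cf.kF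
  · exfalso
    have vS : v ∉ S := by
      rcases hu.1 with e | e | e
      · exact e ▸ uS
      · exact out a v (e ▸ uS) cf.va.symm
      · exact out b v (e ▸ uS) cf.vb.symm
    have oQ := clS Q cf.kQ v cf.vQ vS
    have aQ := cf.aQ
    have bQ := cf.bQ
    have nQ : ¬ (u ∈ Q ∧ w ∈ Q) := by
      rintro ⟨h1, h2⟩
      rcases hu with ⟨rfl | rfl | rfl, rfl | rfl | rfl⟩ <;> contradiction
    have := g.i3 Q fun c k1 d k2 hne => toU c d (oQ c k1) (adj_of_sup (cf.kQ k1 k2 hne) (by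
      rintro (⟨e1, e2⟩ | ⟨e1, e2⟩)
      exacts [nQ ⟨e1 ▸ k1, e2 ▸ k2⟩, nQ ⟨e2 ▸ k2, e1 ▸ k1⟩]))
    rw [cf.cQ] at this
    omega

lemma Good.low (g : Good S t T x y B) (cS : S.card = 9) (j : ℕ) (hj : j + 1 ≤ T)
    {G : SimpleGraph V} (hG : P S T x y B j ≤ G) :
    (step HH G).Adj (x (j + 1)) (y (j + 1)) := by
  classical
  obtain ⟨a, ha, b, hb, ab⟩ := Finset.one_lt_card.1 (show 1 < S.card by omega)
  let Q := (S.erase a).erase b
  have cQ : Q.card = 7 := by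
    show ((S.erase a).erase b).card = 7
    rw [Finset.card_erase_of_mem (Finset.mem_erase.2 ⟨ab.symm, hb⟩), Finset.card_erase_of_mem ha,
      cS]
  have QS : Q ⊆ S := (Finset.erase_subset _ _).trans (Finset.erase_subset _ _)
  obtain ⟨v, hv⟩ : Q.Nonempty := Finset.card_pos.1 (by omega)
  have aQ : a ∉ Q := by simp [Q]
  have bQ : b ∉ Q := by simp [Q]
  have sa : ∀ c ∈ S, ∀ d ∈ S, c ≠ d → (G ⊔ edge (x (j + 1)) (y (j + 1))).Adj c d :=
    fun c hc d hd ne => Or.inl (hG (Or.inl ⟨ne, hc, hd⟩))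
  obtain ⟨k1, k2, k3⟩ := g.xB (j + 1) hj
  refine av G k3 (Q := Q) (v := v) (a := a) (b := b) (F := B (j + 1))
    ⟨cQ, fun c hc d hd ne => sa c (QS hc) d (QS hd) ne, hv, aQ, bQ,
      sa v (QS hv) a ha fun e => aQ (e ▸ hv), sa v (QS hv) b hb fun e => bQ (e ▸ hv),
      sa a ha b hb ab, g.c5 _ hj, fun c hc d hd ne => ?_,
      fun c hc hc' => g.dS _ hj c hc' (QS hc), fun k => g.dS _ hj a k ha,
      fun k => g.dS _ hj b k hb⟩ (Or.inr (Or.inl ⟨k1, k2⟩))
  by_cases e : (c = x (j + 1) ∧ d = y (j + 1)) ∨ (c = y (j + 1) ∧ d = x (j + 1))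
  · right
    rw [edge_adj]
    exact ⟨e, ne⟩
  refine Or.inl (hG (Or.inr ⟨⟨ne, j + 1, hj, hc, hd⟩, fun i h1 h2 e' => ?_⟩))
  by_cases ei : i = j + 1
  · exact e (ei ▸ e')
  refine g.old (j + 1) i (by omega) h2 ?_
  rcases e' with ⟨e1, e2⟩ | ⟨e1, e2⟩
  exacts [⟨e1 ▸ hc, e2 ▸ hd⟩, ⟨e2 ▸ hd, e1 ▸ hc⟩]

lemma Good.slow (g : Good S t T x y B) (cS : S.card = 9) : T ≤ tau HH (P S T x y B 0) := by
  have h1 : ∀ j, proc HH (P S T x y B 0) j ≤ P S T x y B j := by
    intro j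
    induction j with
    | zero => exact le_rfl
    | succ j ih => rw [proc_succ]; exact g.up j ih
  have h2 : ∀ j ≤ T, P S T x y B j ≤ proc HH (P S T x y B 0) j := by
    intro j
    induction j with
    | zero => exact fun _ => le_rfl
    | succ j ih =>
      intro hj u w h
      have k := g.low cS j hj (ih (by omega))
      rw [proc_succ]
      by_cases e : (u = x (j + 1) ∧ w = y (j + 1)) ∨ (u = y (j + 1) ∧ w = x (j + 1))
      · rcases e with ⟨e1, e2⟩ | ⟨e1, e2⟩ <;> rw [e1, e2]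
        exacts [k, k.symm]
      refine le_step HH _ (ih (by omega) (h.imp id fun k' => ⟨k'.1, fun i i1 i2 => ?_⟩))
      by_cases ei : i = j + 1
      · exact ei ▸ e
      · exact k'.2 i (by omega) i2
  refine le_tau _ _ _ fun j hj e => ?_
  have k := g.low cS j hj (h2 j hj.le)
  rw [← proc_succ, ← e] at k
  rcases h1 j k with k' | k'
  · exact g.dS _ hj _ (g.xB _ hj).1 k'.2.1
  · exact k'.2 (j + 1) (by omega) hj (Or.inl ⟨rfl, rfl⟩)

end slow

theorem lower (c : ℕ) : ∃ N, ∀ n ≥ N, c * n ≤ M HH n := by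
  refine ⟨2 * (10 + 4 * (1 + (75 * c + 10) + (75 * c + 10) * (75 * c + 10))), fun n hn => ?_⟩
  obtain ⟨S, -, cS⟩ := Finset.exists_subset_card_eq (s := (Finset.univ : Finset (Fin n))) (n := 9)
    (by rw [Finset.card_univ, Fintype.card_fin]; omega)
  have key : ∀ i ≤ c * n, ∃ x y B, Good S (75 * c) i x y B := by
    intro i
    induction i with
    | zero => exact fun _ => good0 S _ cS (by rw [Fintype.card_fin]; omega)
    | succ i ih =>
      intro hi
      obtain ⟨x, y, B, g⟩ := ih (by omega)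
      refine g.next (h := n / 2) cS ?_ (by rw [Fintype.card_fin]; omega)
      have k1 : n ≤ 3 * (n / 2) := by omega
      have k2 := Nat.mul_le_mul_left c k1
      nlinarith
  obtain ⟨x, y, B, g⟩ := key _ le_rfl
  exact (g.slow cS).trans (le_ciSup (f := fun G : SimpleGraph (Fin n) => tau HH G)
    (Finite.bddAbove_range _) _)

theorem upper' (n : ℕ) : M' HH n ≤ 43813 * n + 7 :=
  ciSup_le' fun G => by simpa using upper G.1 G.2

end Pool.Agent.H.MP_000f96_co
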